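import Pool.Agent.R228.BD.Main

/-!
# MP_ed2581_pr: an integrable terminal value without a solution of class (D)

For every `T > 0`, every `d ≥ 1` and every `d`-dimensional standard Brownian motion `B` on a
complete probability space there is a nonnegative `ξ ∈ L^1(F_T)` such that the backward equation
`Y_t = ξ + ∫_t^T |Z_s| (ln (e + |Z_s|))^{-1/2} ds - ∫_t^T Z_s · dB_s`
has no solution `(Y, Z)` with `Y` of class (D). So Q1 has the answer NO.
-/

open MeasureTheory ProbabilityTheory Filter Topology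
open scoped NNReal ENNReal

namespace Pool.Agent.Results.MP_ed2581_pr.NoSolution

open Pool.Agent.R228.BD
open Pool.Agent.R228.BS (E IsBrownianVec natFilt ClassD)

theorem result {d : ℕ} (hd : 0 < d) {T : ℝ≥0} (hT : 0 < T) {Ω : Type} [mΩ : MeasurableSpace Ω]
    (P : Measure Ω) [IsProbabilityMeasure P] [P.IsComplete] (B : ℝ≥0 → Ω → E d)
    (hB : IsBrownianVec P B) :
    ∃ ξ : Ω → ℝ, StronglyMeasurable[natFilt P B hB.meas T] ξ ∧ (∀ ω, 0 ≤ ξ ω) ∧
      Integrable ξ P ∧
      ¬ ∃ (Y : ℝ≥0 → Ω → ℝ) (Z : ℝ≥0 → Ω → E d),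
        IsSol P (natFilt P B hB.meas) B T ξ Y Z ∧ ClassD P (natFilt P B hB.meas) T Y :=
  main hd hT P B hB

end Pool.Agent.Results.MP_ed2581_pr.NoSolution
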